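import Pool.Agent.R129.Hfp.Ears

set_option autoImplicit false
set_option linter.unusedSectionVars false
set_option linter.unusedVariables false

/-!
# `1/2`-flow-pairs: classes of graphs closed under identifications
-/

namespace Pool.Agent.H789.HF

open Finset Pool.Agent.TH362.TF Pool.Agent.H160R2.HF Pool.Agent.R129.Hfp

variable {V E : Type} [Fintype V] [DecidableEq V] [Fintype E] [DecidableEq E]

/-- If every bridgeless graph obtained from `G` by identification of vertices has a nowhere-zero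
4-flow or a Petersen quotient, then `G` has a `1/2`-flow-pair, with prescribed values at a vertex
with three edges. -/
theorem pair_of (G : OrGraph V E) (hb : G.Bridgeless)
    (h : ∀ π : V → V, N1 (fun e => π (G.t e)) (fun e => π (G.h e)) univ →
      NZ (fun e => π (G.t e)) (fun e => π (G.h e)) univ ∨
        PQ (fun e => π (G.t e)) (fun e => π (G.h e)) univ) :
    (∃ φ₂ φ₄ : E → ℤ, G.IsHalfFlowPair φ₂ φ₄) ∧
      ∀ w, (G.cut {w}).card = 3 → ∀ α β : E → ℤ,
        ∑ e ∈ G.cut {w}, (if G.t e = w then α e else - α e) = 0 →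
        ∑ e ∈ G.cut {w}, (if G.t e = w then β e else - β e) = 0 →
        (∀ e ∈ G.cut {w}, |α e| ≤ 1 ∧ |β e| ≤ 3 ∧ (α e = 0 → 2 ≤ |β e|)) →
        ∃ φ₂ φ₄ : E → ℤ, G.IsHalfFlowPair φ₂ φ₄ ∧ ∀ e ∈ G.cut {w}, φ₂ e = α e ∧ φ₄ e = β e := by
  obtain ⟨h1, h2⟩ := Pool.Agent.R129.Hfp.main
    (fun G' => ∃ ρ : V → V, G' = Pool.Agent.TH499.NF.mp G ρ)
    (fun G' ρ' ⟨ρ, hρ⟩ => ⟨fun v => ρ' (ρ v), by rw [hρ]; rfl⟩)
    (fun G' ⟨ρ, hρ⟩ hb => by
      subst hρ
      rcases h ρ (n1_of hb) with h | h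
      · exact Or.inl (nzK_of h)
      · exact Or.inr h) _ G rfl ⟨id, rfl⟩ (G.cut_card_ne_one hb)
  exact ⟨h1, fun w hw α β a b c => h2 w hw α β a b c⟩

end Pool.Agent.H789.HF
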