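import Pool.Agent.R140.PK.Three
import Pool.Agent.R129.Hfp.Ears

set_option autoImplicit false
set_option linter.unusedSectionVars false
set_option linter.unusedVariables false

/-!
# `1/2`-flow-pairs: classes of graphs closed under contractions of connected sets
-/

namespace Pool.Agent.H789.HF

open Finset Relation Pool.Agent.H160R2.HF Pool.Agent.H179R3.HF Pool.Agent.TH499.NF
open Pool.Agent.R129.Hfp
open Pool.Agent.TH362.TF (nb padj IsPQ PQ Joins N1 NZ Ends)
open Pool.Agent.R140.PK (cu mem_cu three_cut ctr MinP exists_MinP ConnS St FC lift_path main8)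

variable {V E : Type} [Fintype V] [DecidableEq V] [Fintype E] [DecidableEq E]

/-- a pair exists, and admissible values at vertices with three edges extend -/
def Pr (s t : E → V) : Prop :=
  (∃ φ₂ φ₄ : E → ℤ, (⟨s, t⟩ : OrGraph V E).IsHalfFlowPair φ₂ φ₄) ∧
    ∀ w, FlexAt (⟨s, t⟩ : OrGraph V E) w

theorem isFlow_iff (G : OrGraph V E) (φ : E → ℤ) : G.IsFlow φ ↔ ∀ v, net G.t G.h φ v = 0 := by
  unfold OrGraph.IsFlow net
  exact forall_congr' fun v => sub_eq_zero.symm

theorem isFlow_mp {G : OrGraph V E} {φ : E → ℤ} (h : G.IsFlow φ) (ρ : V → V) :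
    (mp G ρ).IsFlow φ := by
  rw [isFlow_iff] at h ⊢
  intro v
  rw [net_mp]
  exact Finset.sum_eq_zero fun x _ => h x

theorem pair_mp {G : OrGraph V E} {φ₂ φ₄ : E → ℤ} (h : G.IsHalfFlowPair φ₂ φ₄) (ρ : V → V) :
    (mp G ρ).IsHalfFlowPair φ₂ φ₄ :=
  ⟨⟨h.1.1, isFlow_mp h.1.2 ρ⟩, ⟨h.2.1.1, isFlow_mp h.2.1.2 ρ⟩, h.2.2⟩

theorem cut_eq_cu (s t : E → V) (A : Finset V) : (⟨s, t⟩ : OrGraph V E).cut A = cu s t A := by
  ext e
  rw [mem_cut, mem_cu]

/-- the property passes from the contraction of `A2` to the contraction of the complement of the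
class `k` -/
theorem pr_tr {s t : E → V} {κ : V → Fin 10} {c : Fin 10 → V} (hc : ∀ k, κ (c k) ≠ k)
    {k : Fin 10} {A2 : Finset V} {a2 : V} (ha2 : a2 ∈ A2) (hd : Disjoint (Cl κ k) A2)
    (hcu : cu s t A2 = cu s t (Cl κ k)) (h : Pr (ctr A2 a2 s) (ctr A2 a2 t)) :
    (∃ φ₂ φ₄ : E → ℤ, (mp (⟨s, t⟩ : OrGraph V E) (ro κ c k)).IsHalfFlowPair φ₂ φ₄) ∧
      ∀ w, FlexAt (mp (⟨s, t⟩ : OrGraph V E) (ro κ c k)) w := by
  classical
  set G : OrGraph V E := ⟨s, t⟩ with hG
  set π : V → V := fun v => if v ∈ A2 then a2 else v with hπ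
  have hH : (⟨ctr A2 a2 s, ctr A2 a2 t⟩ : OrGraph V E) = mp G π := rfl
  have hnot : ∀ v, κ v = k → v ∉ A2 := fun v hv => disjoint_left.1 hd (mem_Cl.2 hv)
  have ha2k : κ a2 ≠ k := fun h => hnot a2 h ha2
  have hro : ∀ v, ro κ c k (π v) = ro κ c k v := by
    intro v
    simp only [hπ]
    split_ifs with h1
    · have h2 : κ v ≠ k := fun h => hnot v h h1
      unfold ro
      rw [if_neg ha2k, if_neg h2]
    · rfl
  have hmp : mp (mp G π) (ro κ c k) = mp G (ro κ c k) := by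
    unfold mp
    simp only [hro]
  obtain ⟨⟨φ₂, φ₄, hp⟩, hf⟩ := h
  rw [hH] at hp
  refine ⟨⟨φ₂, φ₄, by rw [← hmp]; exact pair_mp hp _⟩, fun w => ?_⟩
  -- a vertex of the class
  by_cases hw : κ w = k
  · have hwA := hnot w hw
    have hwa : w ≠ a2 := fun h => hwA (h ▸ ha2)
    have hπw : ∀ x, π x = w ↔ x = w := by
      intro x
      simp only [hπ]
      split_ifs with h1
      · exact ⟨fun h => absurd h.symm hwa, fun h => absurd (h ▸ h1) hwA⟩
      · exact Iff.rfl
    have hcut1 : (mp G (ro κ c k)).cut {w} = G.cut {w} := cut_ro' hc hw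
    have hcut2 : (mp G π).cut {w} = G.cut {w} := by
      rw [cut_mp]
      congr 1
      ext x
      rw [mem_filter, mem_singleton, mem_singleton, hπw]
      exact ⟨fun h => h.2, fun h => ⟨mem_univ _, h⟩⟩
    intro hw3 α β hα hβ hok
    rw [hcut1] at hw3 hα hβ hok
    have hsum : ∀ γ : E → ℤ, ∑ e ∈ G.cut {w}, (if (mp G (ro κ c k)).t e = w then γ e else - γ e) =
        ∑ e ∈ G.cut {w}, (if (mp G π).t e = w then γ e else - γ e) := by
      intro γ
      refine sum_congr rfl fun e _ => ?_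
      have h1 : (mp G (ro κ c k)).t e = w ↔ (mp G π).t e = w :=
        (ro_eq hc hw (G.t e)).trans (hπw (G.t e)).symm
      by_cases h2 : (mp G π).t e = w
      · rw [if_pos h2, if_pos (h1.2 h2)]
      · rw [if_neg h2, if_neg (fun h3 => h2 (h1.1 h3))]
    obtain ⟨φ₂, φ₄, h1, h2⟩ := hf w (by rw [hH, hcut2]; exact hw3) α β
      (by rw [hH, hcut2, ← hsum]; exact hα) (by rw [hH, hcut2, ← hsum]; exact hβ)
      (by rw [hH, hcut2]; exact hok)
    rw [hH] at h1 h2
    rw [hcut2] at h2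
    refine ⟨φ₂, φ₄, by rw [← hmp]; exact pair_mp h1 _, by rw [hcut1]; exact h2⟩
  · by_cases hwc : w = c k
    · subst hwc
      have hcut1 : (mp G (ro κ c k)).cut {c k} = G.cut (Cl κ k) := cut_ro hc k
      have hcut2 : (mp G π).cut {a2} = G.cut (Cl κ k) := by
        have h1 : univ.filter (fun x => π x ∈ ({a2} : Finset V)) = A2 := by
          ext x
          rw [mem_filter, mem_singleton]
          simp only [hπ]
          constructor
          · rintro ⟨_, h⟩
            by_contra hx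
            rw [if_neg hx] at h
            exact hx (h ▸ ha2)
          · intro hx
            exact ⟨mem_univ _, if_pos hx⟩
        rw [cut_mp, h1, hG, cut_eq_cu, cut_eq_cu, hcu]
      intro hw3 α β hα hβ hok
      rw [hcut1] at hw3 hα hβ hok
      have hsum : ∀ γ : E → ℤ, ∑ e ∈ G.cut (Cl κ k),
          (if (mp G (ro κ c k)).t e = c k then γ e else - γ e) =
          ∑ e ∈ G.cut (Cl κ k), (if (mp G π).t e = a2 then γ e else - γ e) := by
        intro γ
        refine sum_congr rfl fun e he => ?_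
        have he2 : e ∈ cu s t A2 := by rw [hcu, ← cut_eq_cu]; exact he
        rw [mem_cut, mem_Cl, mem_Cl] at he
        rw [mem_cu] at he2
        have h3 : (mp G (ro κ c k)).t e = c k ↔ κ (s e) ≠ k := by
          change ro κ c k (s e) = c k ↔ _
          unfold ro
          split_ifs with h
          · exact ⟨fun h2 => absurd (h2 ▸ h) (hc k), fun h2 => absurd h h2⟩
          · exact ⟨fun _ => h, fun _ => rfl⟩
        have h4 : (mp G π).t e = a2 ↔ s e ∈ A2 := by
          change π (s e) = a2 ↔ _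
          simp only [hπ]
          split_ifs with h
          · exact ⟨fun _ => h, fun _ => rfl⟩
          · exact ⟨fun h2 => absurd (h2 ▸ ha2) h, fun h2 => absurd h2 h⟩
        have h5 : κ (s e) ≠ k ↔ s e ∈ A2 := by
          have h6 := hnot (s e)
          have h7 := hnot (t e)
          have he' : ¬ (κ (s e) = k ↔ κ (t e) = k) := he
          tauto
        by_cases h2 : s e ∈ A2
        · rw [if_pos (h4.2 h2), if_pos (h3.2 (h5.2 h2))]
        · rw [if_neg (fun h => h2 (h4.1 h)), if_neg (fun h => h2 (h5.1 (h3.1 h)))]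
      obtain ⟨φ₂, φ₄, h1, h2⟩ := hf a2 (by rw [hH, hcut2]; exact hw3) α β
        (by rw [hH, hcut2, ← hsum]; exact hα) (by rw [hH, hcut2, ← hsum]; exact hβ)
        (by rw [hH, hcut2]; exact hok)
      rw [hH] at h1 h2
      rw [hcut2] at h2
      refine ⟨φ₂, φ₄, by rw [← hmp]; exact pair_mp h1 _, by rw [hcut1]; exact h2⟩
    · intro hw3
      exfalso
      have h1 : (mp G (ro κ c k)).cut {w} = ∅ := by
        rw [cut_mp]
        have h2 : univ.filter (fun x => ro κ c k x ∈ ({w} : Finset V)) = ∅ := by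
          rw [Finset.filter_eq_empty_iff]
          intro x _ hx
          rw [mem_singleton] at hx
          unfold ro at hx
          split_ifs at hx with h3
          · exact hw (hx ▸ h3)
          · exact hwc hx.symm
        rw [h2]
        ext e
        rw [mem_cut]
        simp
      rw [h1, card_empty] at hw3
      exact absurd hw3 (by decide)

/-- the conclusion from the ten smaller graphs -/
theorem pr_of_pq {G : OrGraph V E} {κ : V → Fin 10} (h : IsPQ G.t G.h univ κ)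
    (IH : ∀ (κ' : V → Fin 10), IsPQ G.t G.h univ κ' → ∀ (c : Fin 10 → V),
      (∀ k, κ' (c k) ≠ k) → ∀ (k : Fin 10),
      (∃ φ₂ φ₄ : E → ℤ, (mp G (ro κ' c k)).IsHalfFlowPair φ₂ φ₄) ∧
        ∀ w, FlexAt (mp G (ro κ' c k)) w) :
    (∃ φ₂ φ₄ : E → ℤ, G.IsHalfFlowPair φ₂ φ₄) ∧ ∀ w, FlexAt G w := by
  constructor
  · obtain ⟨c, hc⟩ := exists_c h
    obtain ⟨⟨a₂, a₄, ha⟩, _⟩ := IH κ h c hc 0
    obtain ⟨φ₂, φ₄, h1, _⟩ := glueP h hc (fun k => (IH κ h c hc k).2 _) ha
    exact ⟨φ₂, φ₄, h1⟩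
  · intro w hw α β hα hβ hok
    obtain ⟨κ', h', hw0⟩ : ∃ κ' : V → Fin 10, IsPQ G.t G.h univ κ' ∧ κ' w = 0 :=
      ⟨fun v => tau (κ w) (κ v), isPQ_tau h (κ w), tau_self _⟩
    obtain ⟨c, hc⟩ := exists_c h'
    have hcut := cut_ro' (G := G) hc hw0
    have hsum : ∀ γ : E → ℤ, ∑ e ∈ (mp G (ro κ' c 0)).cut {w},
        (if (mp G (ro κ' c 0)).t e = w then γ e else - γ e) =
        ∑ e ∈ G.cut {w}, (if G.t e = w then γ e else - γ e) := by
      intro γ
      rw [hcut]
      refine sum_congr rfl fun e _ => ?_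
      have h1 : (mp G (ro κ' c 0)).t e = w ↔ G.t e = w := ro_eq hc hw0 (G.t e)
      by_cases h2 : G.t e = w
      · rw [if_pos h2, if_pos (h1.2 h2)]
      · rw [if_neg h2, if_neg (fun h3 => h2 (h1.1 h3))]
    obtain ⟨a₂, a₄, ha, hav⟩ := (IH κ' h' c hc 0).2 w (by rw [hcut]; exact hw) α β
      (by rw [hsum]; exact hα) (by rw [hsum]; exact hβ) (by rw [hcut]; exact hok)
    rw [hcut] at hav
    obtain ⟨φ₂, φ₄, h1, h2⟩ := glueP h' hc (fun k => (IH κ' h' c hc k).2 _) ha
    refine ⟨φ₂, φ₄, h1, fun e he => ?_⟩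
    have h3 : κ' (G.t e) = 0 ∨ κ' (G.h e) = 0 := by
      rw [mem_cut, mem_singleton, mem_singleton] at he
      by_cases h4 : G.t e = w
      · left; rw [h4]; exact hw0
      · by_cases h5 : G.h e = w
        · right; rw [h5]; exact hw0
        · exact absurd ⟨fun h => absurd h h4, fun h => absurd h h5⟩ he
    obtain ⟨h6, h7⟩ := h2 e h3
    obtain ⟨h8, h9⟩ := hav e he
    exact ⟨h6.trans h8, h7.trans h9⟩

theorem nb01 : ∀ k : Fin 10, nb k 0 ≠ nb k 1 := by decide

/-- the ten smaller graphs of a minimal contraction have the property -/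
theorem MinP.side {s t : E → V} (h : MinP Pr s t) {κ : V → Fin 10} (hκ : IsPQ s t univ κ)
    {c : Fin 10 → V} (hc : ∀ k, κ (c k) ≠ k) (k : Fin 10) :
    (∃ φ₂ φ₄ : E → ℤ, (mp (⟨s, t⟩ : OrGraph V E) (ro κ c k)).IsHalfFlowPair φ₂ φ₄) ∧
      ∀ w, FlexAt (mp (⟨s, t⟩ : OrGraph V E) (ro κ c k)) w := by
  classical
  have h3 : (cu s t (Cl κ k)).card = 3 := by
    rw [← cut_eq_cu]
    exact cut_Cl (G := ⟨s, t⟩) hκ k
  obtain ⟨A2, hA1, hA2, hA3, hA4, a2, ha2⟩ := three_cut h.n1 h3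
  refine pr_tr hc ha2 hA1 hA3 (h.mn _ _ ha2 hA2 ?_)
  by_contra hcon
  push Not at hcon
  -- the outer ends of two edges of the cut
  have hout : ∀ j : Fin 3, ∃ x ∈ A2, κ x = nb k j := by
    intro j
    obtain ⟨e, _, he⟩ := hκ.2 k (nb k j) (padj_nb k j)
    have hne := nb_ne k j
    have hcu : e ∈ cu s t A2 := by
      rw [hA3, mem_cu, mem_Cl, mem_Cl]
      rcases he with ⟨a, b⟩ | ⟨a, b⟩
      · rw [a, b]; exact fun hh => hne (hh.1 rfl)
      · rw [a, b]; exact fun hh => hne (hh.2 rfl)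
    rw [mem_cu] at hcu
    rcases he with ⟨a, b⟩ | ⟨a, b⟩
    · have h1 : s e ∉ A2 := disjoint_left.1 hA1 (mem_Cl.2 a)
      exact ⟨t e, by tauto, b⟩
    · have h1 : t e ∉ A2 := disjoint_left.1 hA1 (mem_Cl.2 b)
      exact ⟨s e, by tauto, a⟩
  obtain ⟨x, hx, hxk⟩ := hout 0
  obtain ⟨y, hy, hyk⟩ := hout 1
  have hxy := hA2 x hx y hy
  have heq : x = y := by
    clear hyk
    clear hy
    induction hxy with
    | refl => rfl
    | tail _ h4 ih =>
      obtain ⟨⟨e', _, hE⟩, hp, hq⟩ := h4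
      rcases hE with ⟨a1, a2'⟩ | ⟨a1, a2'⟩
      · by_contra hne
        have h5 : s e' ≠ t e' := by
          rw [a1, a2']
          exact fun h6 => hne (ih.trans h6)
        exact hcon e' h5 (a1 ▸ hp) (a2' ▸ hq)
      · by_contra hne
        have h5 : s e' ≠ t e' := by
          rw [a1, a2']
          exact fun h6 => hne (ih.trans h6.symm)
        exact hcon e' h5 (a1 ▸ hq) (a2' ▸ hp)
  exact nb01 k (by rw [← hxk, ← hyk, heq])

/-- bridgeless graphs without induced paths with eight vertices -/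
theorem pr_main (s t : E → V) (hn : N1 s t univ)
    (hp : ¬ ∃ p : Fin 8 → V, Function.Injective p ∧ ∀ i j : Fin 8, i < j →
      ((∃ e, (s e = p i ∧ t e = p j) ∨ (s e = p j ∧ t e = p i)) ↔ i.val + 1 = j.val)) :
    Pr s t := by
  classical
  by_contra hcon
  obtain ⟨π, hπ, hM⟩ := exists_MinP Pr s t hn hcon
  have hp' : ¬ ∃ q : Fin 8 → V, Function.Injective q ∧ ∀ i j : Fin 8, i < j →
      ((∃ e, (π (s e) = q i ∧ π (t e) = q j) ∨ (π (s e) = q j ∧ π (t e) = q i)) ↔
        i.val + 1 = j.val) := by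
    rintro ⟨q, hq, hq'⟩
    obtain ⟨p, hp1, hp2⟩ := lift_path hπ (by omega) q hq (fun i j hij => by
      rw [← hq' i j hij]
      constructor
      · rintro ⟨_, e, _, he⟩
        exact ⟨e, he⟩
      · rintro ⟨e, he⟩
        exact ⟨fun h => absurd (hq h) (ne_of_gt hij), e, mem_univ e, he⟩)
    refine hp ⟨p, hp1, fun i j hij => ?_⟩
    rw [← hp2 i j hij]
    constructor
    · rintro ⟨e, he⟩
      exact ⟨fun h => absurd (hp1 h) (ne_of_gt hij), e, mem_univ e, he⟩
    · rintro ⟨_, e, _, he⟩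
      exact ⟨e, he⟩
  have hb : ∀ X : Finset V,
      ((⟨fun e => π (s e), fun e => π (t e)⟩ : OrGraph V E).cut X).card ≠ 1 := by
    intro X
    rw [cut_eq_cu]
    exact hM.n1 _
  apply hM.np
  rcases main8 (fun e => π (s e)) (fun e => π (t e)) hM.n1 hp' with h1 | ⟨κ, hκ⟩
  · have h2 : NzK (⟨fun e => π (s e), fun e => π (t e)⟩ : OrGraph V E) := nzK_of h1
    exact ⟨pair_of_nz hb h2, flex_of_nz h2⟩
  · exact pr_of_pq (G := ⟨fun e => π (s e), fun e => π (t e)⟩) hκ
      fun κ' hκ' c hc k => MinP.side hM hκ' hc k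

end Pool.Agent.H789.HF
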